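import Pool.Agent.K1H14.SE.Stm
import Pool.Agent.K1H58.SD.Comb

set_option autoImplicit false

/-! Closure of a family of sets under odd symmetric differences (variant of `t_COMB`), rank two modulo four. -/

namespace Pool.Agent.K1H38.SE

open Pool.Agent.K1H58.SD (level)

open scoped symmDiff

theorem t_CMB3 : Pool.Agent.K1H14.SE.S_CMB3 := by
  intro d P hd h2 hx hm hex L hL hLd
  obtain ⟨K, hK, hne, hne1⟩ := hex
  have hcd : ∀ T : Finset (Fin d), T.card ≤ d := fun T => by
    simpa using Finset.card_le_univ T
  have hk := hm K hK
  have hkd := hcd K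
  have hLd' := hcd L
  have h3 : K.card + 3 ≤ d := by omega
  -- all sets with six elements
  have h6 : ∀ T : Finset (Fin d), T.card = 6 → P T := by
    obtain ⟨A, hA, hAc⟩ := Finset.exists_subset_card_eq (s := K) (n := 3) (by omega)
    have hKc : Kᶜ.card = d - K.card := by
      rw [Finset.card_compl, Fintype.card_fin]
    obtain ⟨B, hB, hBc⟩ := Finset.exists_subset_card_eq (s := Kᶜ) (n := 3) (by omega)
    have hBK : ∀ x ∈ B, x ∉ K := fun x hx => Finset.mem_compl.1 (hB hx)
    have hdis : Disjoint (K \ A) B := by
      rw [Finset.disjoint_left]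
      intro x h4 h5
      exact hBK x h5 (Finset.mem_sdiff.1 h4).1
    have hKA : (K \ A).card = K.card - 3 := by
      rw [Finset.card_sdiff_of_subset hA, hAc]
    have hLc : ((K \ A) ∪ B).card = K.card := by
      rw [Finset.card_union_of_disjoint hdis, hKA, hBc]
      omega
    have hPL : P ((K \ A) ∪ B) := level h2 hx _ K _ rfl hK hLc
    have hint : K ∩ ((K \ A) ∪ B) = K \ A := by
      ext x
      simp only [Finset.mem_inter, Finset.mem_union, Finset.mem_sdiff]
      constructor
      · rintro ⟨h4, h5 | h5⟩
        · exact h5
        · exact absurd h4 (hBK x h5)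
      · rintro ⟨h4, h5⟩
        exact ⟨h4, Or.inl ⟨h4, h5⟩⟩
    have hsym : K ∆ ((K \ A) ∪ B) = A ∪ B := by
      ext x
      simp only [Finset.mem_symmDiff, Finset.mem_union, Finset.mem_sdiff]
      constructor
      · rintro (⟨h4, h5⟩ | ⟨h4, h5⟩)
        · left
          by_contra h6
          exact h5 (Or.inl ⟨h4, h6⟩)
        · rcases h4 with h4 | h4
          · exact absurd h4.1 h5
          · exact Or.inr h4
      · rintro (h4 | h4)
        · refine Or.inl ⟨hA h4, ?_⟩
          rintro (h5 | h5)
          · exact h5.2 h4
          · exact hBK x h5 (hA h4)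
        · exact Or.inr ⟨Or.inr h4, hBK x h4⟩
    have hP : P (A ∪ B) := by
      rw [← hsym]
      refine hx _ _ hK hPL ?_
      rw [hint, hKA, Nat.odd_iff]
      omega
    have hdAB : Disjoint A B := by
      rw [Finset.disjoint_left]
      intro x h4 h5
      exact hBK x h5 (hA h4)
    have hABc : (A ∪ B).card = 6 := by
      rw [Finset.card_union_of_disjoint hdAB, hAc, hBc]
    intro T hT
    exact level h2 hx _ (A ∪ B) T rfl hP (by omega)
  -- all levels
  have hall : ∀ (m : ℕ) (T : Finset (Fin d)), T.card = 4 * m + 2 → T.card ≠ d → P T := by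
    intro m
    induction m with
    | zero => exact fun T hT _ => h2 T (by omega)
    | succ m ih =>
      intro T hT hTne
      have hTd := hcd T
      have hTn : (Tᶜ).Nonempty := by
        rw [← Finset.card_pos, Finset.card_compl, Fintype.card_fin]
        omega
      obtain ⟨x, hx0⟩ := hTn
      have hxT : x ∉ T := Finset.mem_compl.1 hx0
      obtain ⟨A, hA, hAc⟩ := Finset.exists_subset_card_eq (s := T) (n := 5) (by omega)
      have hxA : x ∉ A := fun h => hxT (hA h)
      have h7 : P (insert x A) := h6 _ (by rw [Finset.card_insert_of_notMem hxA, hAc])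
      have hxTA : x ∉ T \ A := fun h => hxT (Finset.mem_sdiff.1 h).1
      have h8 : P (insert x (T \ A)) := by
        have hc1 : (insert x (T \ A)).card = 4 * m + 2 := by
          rw [Finset.card_insert_of_notMem hxTA, Finset.card_sdiff_of_subset hA, hAc, hT]
          omega
        exact ih _ hc1 (by omega)
      have h9 : insert x A ∩ insert x (T \ A) = {x} := by
        ext y
        simp only [Finset.mem_inter, Finset.mem_insert, Finset.mem_sdiff, Finset.mem_singleton]
        constructor
        · rintro ⟨h10 | h10, h11 | h11⟩
          · exact h10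
          · exact h10
          · exact h11
          · exact absurd h10 h11.2
        · intro h10
          exact ⟨Or.inl h10, Or.inl h10⟩
      have h10 : insert x A ∆ insert x (T \ A) = T := by
        ext y
        simp only [Finset.mem_symmDiff, Finset.mem_insert, Finset.mem_sdiff]
        by_cases hyx : y = x
        · subst hyx
          simp [hxT]
        · by_cases hyA : y ∈ A
          · have := hA hyA
            simp [hyx, hyA, this]
          · simp [hyx, hyA]
      rw [← h10]
      refine hx _ _ h7 h8 ?_
      rw [h9, Finset.card_singleton]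
      exact odd_one
  exact hall (L.card / 4) L (by omega) hLd

end Pool.Agent.K1H38.SE
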